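import Pool.Agent.Helper97.FS.Stmts

set_option autoImplicit false

namespace Pool.Agent.Helper97.FS

open Finset MeasureTheory Filter Topology UnitAddTorus
open scoped ComplexConjugate
open Pool.Agent.Helper97.Sub

variable {d : ℕ}

theorem e2_sum {n : ℕ} (S : Finset (Fin n → ℤ)) (x G : (Fin n → ℤ) → ℂ) :
    ∑ m ∈ insert 0 (S.image (fun k => -k)), (if -m ∈ S then x (-m) else 0) * G m =
      ∑ k ∈ S, x k * G (-k) := by
  rw [← Finset.sum_subset (Finset.subset_insert 0 (S.image (fun k => -k)))]
  · rw [Finset.sum_image (fun a _ b _ hab => neg_injective hab)]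
    refine Finset.sum_congr rfl fun k hk => ?_
    rw [neg_neg, if_pos hk]
  · intro m _ hm
    rw [if_neg, zero_mul]
    intro h
    exact hm (Finset.mem_image.2 ⟨-m, h, neg_neg m⟩)

theorem e2_dbl (a b : Fin d) (p q p' q' : ℂ) (M : Fin d → Fin d → ℂ) :
    ∑ e, ∑ f, ((if e = a then p else 0) + (if e = b then q else 0)) *
      conj ((if f = a then p' else 0) + (if f = b then q' else 0)) * M e f =
      p * conj p' * M a a + p * conj q' * M a b + q * conj p' * M b a + q * conj q' * M b b := by
  have h1 : ∀ e : Fin d, ∑ f, ((if e = a then p else 0) + (if e = b then q else 0)) *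
      conj ((if f = a then p' else 0) + (if f = b then q' else 0)) * M e f =
      ((if e = a then p else 0) + (if e = b then q else 0)) * (conj p' * M e a + conj q' * M e b) := by
    intro e
    have h2 : ∀ f : Fin d, ((if e = a then p else 0) + (if e = b then q else 0)) *
        conj ((if f = a then p' else 0) + (if f = b then q' else 0)) * M e f =
        ((if e = a then p else 0) + (if e = b then q else 0)) *
          ((if f = a then conj p' * M e f else 0) + (if f = b then conj q' * M e f else 0)) := by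
      intro f
      split_ifs <;> simp only [map_add, map_zero] <;> ring
    rw [Finset.sum_congr rfl fun f _ => h2 f, ← Finset.mul_sum, Finset.sum_add_distrib,
      Finset.sum_ite_eq', Finset.sum_ite_eq', if_pos (Finset.mem_univ _),
      if_pos (Finset.mem_univ _)]
  rw [Finset.sum_congr rfl fun e _ => h1 e]
  have h2 : ∀ e : Fin d, ((if e = a then p else 0) + (if e = b then q else 0)) *
      (conj p' * M e a + conj q' * M e b) =
      (if e = a then p * (conj p' * M e a + conj q' * M e b) else 0) +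
      (if e = b then q * (conj p' * M e a + conj q' * M e b) else 0) := by
    intro e
    split_ifs <;> ring
  rw [Finset.sum_congr rfl fun e _ => h2 e, Finset.sum_add_distrib, Finset.sum_ite_eq',
    Finset.sum_ite_eq', if_pos (Finset.mem_univ _), if_pos (Finset.mem_univ _)]
  ring

theorem e2_quad {n : ℕ} (S : Finset (Fin n → ℤ)) (x : (Fin n → ℤ) → ℂ)
    (G : (Fin n → ℤ) → ℂ) :
    ∑ m ∈ insert 0 (S.image (fun k => -k)), ∑ m' ∈ insert 0 (S.image (fun k => -k)),
      (if -m ∈ S then x (-m) else 0) * conj (if -m' ∈ S then x (-m') else 0) * G (m' - m) =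
      ∑ k ∈ S, ∑ k' ∈ S, x k * conj (x k') * G (k - k') := by
  have h1 : ∀ m, (∑ m' ∈ insert 0 (S.image (fun k => -k)),
      (if -m ∈ S then x (-m) else 0) * conj (if -m' ∈ S then x (-m') else 0) * G (m' - m)) =
      (if -m ∈ S then x (-m) else 0) * ∑ k' ∈ S, conj (x k') * G (-k' - m) := by
    intro m
    have h2 := e2_sum S (fun k => conj (x k)) (fun m' => G (m' - m))
    rw [← h2, Finset.mul_sum]
    refine Finset.sum_congr rfl fun m' _ => ?_
    by_cases h3 : -m' ∈ S
    · rw [if_pos h3, if_pos h3]; ring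
    · rw [if_neg h3, if_neg h3]; simp
  rw [Finset.sum_congr rfl fun m _ => h1 m]
  have h4 := e2_sum S x (fun m => ∑ k' ∈ S, conj (x k') * G (-k' - m))
  rw [h4]
  refine Finset.sum_congr rfl fun k _ => ?_
  rw [Finset.mul_sum]
  refine Finset.sum_congr rfl fun k' _ => ?_
  rw [show -k' - -k = k - k' by abel]
  ring

theorem e2_diag {n : ℕ} {v : (Fin n → ℤ) →+ ℝ} {B : (Fin n → ℤ) → Fin d → Fin d → ℂ}
    (h : PDM v B) (a : Fin d) (S : Finset (Fin n → ℤ)) (x : (Fin n → ℤ) → ℂ) :
    0 ≤ (∑ k ∈ S, ∑ k' ∈ S, x k * conj (x k') * B (k - k') a a).re := by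
  have h1 := h.pos (insert 0 (S.image (fun k => -k)))
    (fun m e => (if e = a then (if -m ∈ S then x (-m) else 0) else 0) +
      (if e = a then 0 else 0))
  simp only [e2_dbl] at h1
  have h2 := e2_quad S x (fun m => B m a a)
  rw [← h2]
  refine h1.trans_eq ?_
  congr 1
  refine Finset.sum_congr rfl fun m _ => Finset.sum_congr rfl fun m' _ => ?_
  simp

theorem e2_b0 {n : ℕ} {v : (Fin n → ℤ) →+ ℝ} {B : (Fin n → ℤ) → Fin d → Fin d → ℂ}
    (h : PDM v B) (b : Fin d) : (B 0 b b).re ≤ 1 := by
  have h1 : ∀ a, 0 ≤ (B 0 a a).re := by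
    intro a
    have h2 := e2_diag h a {0} (fun _ => 1)
    simpa using h2
  have h3 : ∑ a, (B 0 a a).re = 1 := by
    rw [← Complex.re_sum, h.trace, Complex.one_re]
  rw [← h3]
  exact Finset.single_le_sum (f := fun a => (B 0 a a).re) (fun a _ => h1 a) (Finset.mem_univ b)

theorem e2_cs {n : ℕ} {v : (Fin n → ℤ) →+ ℝ} {B : (Fin n → ℤ) → Fin d → Fin d → ℂ}
    (h : PDM v B) (a b : Fin d) (S : Finset (Fin n → ℤ)) (x : (Fin n → ℤ) → ℂ) :
    ‖∑ k ∈ S, x k * B k a b‖ ^ 2 ≤
      (∑ k ∈ S, ∑ k' ∈ S, x k * conj (x k') * B (k - k') a a).re := by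
  set z := ∑ k ∈ S, x k * B k a b with hz
  have h1 := h.pos (insert 0 (S.image (fun k => -k)))
    (fun m e => (if e = a then (if -m ∈ S then x (-m) else 0) else 0) +
      (if e = b then (if m = 0 then -z else 0) else 0))
  simp only [e2_dbl] at h1
  simp only [Finset.sum_add_distrib] at h1
  have h2 := e2_quad S x (fun m => B m a a)
  rw [h2] at h1
  have h3 : ∑ m ∈ insert 0 (S.image (fun k => -k)), ∑ m' ∈ insert 0 (S.image (fun k => -k)),
      (if -m ∈ S then x (-m) else 0) * conj (if m' = 0 then -z else 0) * B (m' - m) a b =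
      - (z * conj z) := by
    have h4 : ∀ m, ∑ m' ∈ insert 0 (S.image (fun k => -k)),
        (if -m ∈ S then x (-m) else 0) * conj (if m' = 0 then -z else 0) * B (m' - m) a b =
        (if -m ∈ S then x (-m) else 0) * (conj (-z) * B (-m) a b) := by
      intro m
      rw [Finset.sum_eq_single (0 : Fin n → ℤ)]
      · rw [if_pos rfl, zero_sub]; ring
      · intro m' _ hm'
        rw [if_neg hm']; simp
      · intro h5
        exact absurd (Finset.mem_insert_self _ _) h5
    rw [Finset.sum_congr rfl fun m _ => h4 m]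
    have h5 := e2_sum S x (fun m => conj (-z) * B (-m) a b)
    simp only [neg_neg] at h5
    rw [h5, map_neg]
    have h6 : ∑ k ∈ S, x k * (-conj z * B k a b) = -conj z * ∑ k ∈ S, x k * B k a b := by
      rw [Finset.mul_sum]
      exact Finset.sum_congr rfl fun k _ => by ring
    rw [h6, ← hz]
    ring
  have h4 : ∑ m ∈ insert 0 (S.image (fun k => -k)), ∑ m' ∈ insert 0 (S.image (fun k => -k)),
      (if m = 0 then -z else 0) * conj (if -m' ∈ S then x (-m') else 0) * B (m' - m) b a =
      - (z * conj z) := by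
    rw [Finset.sum_comm]
    have h5 : ∀ m', ∑ m ∈ insert 0 (S.image (fun k => -k)),
        (if m = 0 then -z else 0) * conj (if -m' ∈ S then x (-m') else 0) * B (m' - m) b a =
        (if -m' ∈ S then conj (x (-m')) else 0) * (-z * B m' b a) := by
      intro m'
      rw [Finset.sum_eq_single (0 : Fin n → ℤ)]
      · rw [if_pos rfl, sub_zero]
        by_cases h7 : -m' ∈ S
        · rw [if_pos h7, if_pos h7]; ring
        · rw [if_neg h7, if_neg h7]; simp
      · intro m _ hm
        rw [if_neg hm]; simp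
      · intro h5
        exact absurd (Finset.mem_insert_self _ _) h5
    rw [Finset.sum_congr rfl fun m _ => h5 m]
    have h6 := e2_sum S (fun k => conj (x k)) (fun m => -z * B m b a)
    rw [h6]
    have h7 : ∑ k ∈ S, conj (x k) * (-z * B (-k) b a) = -z * conj z := by
      rw [hz, map_sum, Finset.mul_sum]
      refine Finset.sum_congr rfl fun k _ => ?_
      rw [h.herm k a b, map_mul]
      ring
    rw [h7]
    ring
  have h5 : ∑ m ∈ insert 0 (S.image (fun k => -k)), ∑ m' ∈ insert 0 (S.image (fun k => -k)),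
      (if m = 0 then -z else 0) * conj (if m' = 0 then -z else 0) * B (m' - m) b b =
      z * conj z * B 0 b b := by
    rw [Finset.sum_eq_single (0 : Fin n → ℤ)]
    · rw [Finset.sum_eq_single (0 : Fin n → ℤ)]
      · rw [if_pos rfl, sub_zero, map_neg]; ring
      · intro m _ hm
        rw [if_neg hm]; simp
      · intro h5
        exact absurd (Finset.mem_insert_self _ _) h5
    · intro m _ hm
      rw [if_neg hm]; simp
    · intro h5
      exact absurd (Finset.mem_insert_self _ _) h5
  rw [h3, h4, h5, Complex.mul_conj] at h1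
  simp only [Complex.add_re, Complex.neg_re, Complex.ofReal_re, Complex.re_ofReal_mul] at h1
  have h6 : Complex.normSq z = ‖z‖ ^ 2 := Complex.normSq_eq_norm_sq z
  rw [h6] at h1
  have h7 := e2_b0 h b
  have h8 : ‖z‖ ^ 2 * (B 0 b b).re ≤ ‖z‖ ^ 2 * 1 :=
    mul_le_mul_of_nonneg_left h7 (by positivity)
  linarith

/-- A functional dominated by the norm of a linear map factors through an inner product. -/
theorem e2_ext {V E : Type} [AddCommGroup V] [Module ℂ V] [NormedAddCommGroup E]
    [InnerProductSpace ℂ E] [CompleteSpace E] (A : V →ₗ[ℂ] E) (l : V →ₗ[ℂ] ℂ) (C : ℝ)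
    (h : ∀ c, ‖l c‖ ≤ C * ‖A c‖) : ∃ g : E, ∀ c, inner ℂ g (A c) = l c := by
  have hker : LinearMap.ker A ≤ LinearMap.ker l := by
    intro c hc
    rw [LinearMap.mem_ker] at hc ⊢
    have h1 := h c
    rw [hc, norm_zero, mul_zero] at h1
    exact norm_le_zero_iff.1 h1
  have hf : ∃ f0 : LinearMap.range A →ₗ[ℂ] ℂ, ∀ c, f0 ⟨A c, LinearMap.mem_range_self A c⟩ = l c := by
    refine ⟨((LinearMap.ker A).liftQ l hker).comp A.quotKerEquivRange.symm.toLinearMap, fun c => ?_⟩
    have h2 : A.quotKerEquivRange.symm ⟨A c, LinearMap.mem_range_self A c⟩ =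
        (LinearMap.ker A).mkQ c := LinearMap.quotKerEquivRange_symm_apply_image A c _
    show (LinearMap.ker A).liftQ l hker
      (A.quotKerEquivRange.symm ⟨A c, LinearMap.mem_range_self A c⟩) = l c
    rw [h2]
    exact Submodule.liftQ_apply _ _ _
  obtain ⟨f0, hf0⟩ := hf
  have hb : ∀ x : LinearMap.range A, ‖f0 x‖ ≤ C * ‖x‖ := by
    rintro ⟨_, c, rfl⟩
    rw [hf0 c]
    exact h c
  obtain ⟨g, hg, -⟩ := exists_extension_norm_eq _ (f0.mkContinuous C hb)
  refine ⟨(InnerProductSpace.toDual ℂ E).symm g, fun c => ?_⟩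
  rw [InnerProductSpace.toDual_symm_apply]
  exact (hg ⟨A c, LinearMap.mem_range_self A c⟩).trans (hf0 c)

theorem st_E2 : ST_E2 := by
  intro n d v B h β hβ hm a b
  obtain ⟨F, hFd⟩ : ∃ F : (Fin n → ℤ) → Lp ℂ 2 β,
      ∀ m, F m = ContinuousMap.toLp 2 β ℂ (mFourier m) := ⟨_, fun _ => rfl⟩
  have hF : ∀ k k', inner ℂ (F k) (F k') = ∑ e, B (k' - k) e e := by
    intro k k'
    rw [hFd, hFd, MeasureTheory.ContinuousMap.inner_toLp, ← hm]
    refine integral_congr_ae (Filter.Eventually.of_forall fun x => ?_)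
    simp only
    rw [sub_eq_add_neg, mFourier_add, mFourier_neg]
  have key : ∀ c : (Fin n → ℤ) →₀ ℂ, ‖Finsupp.linearCombination ℂ (fun m => B m a b) c‖ ≤
      1 * ‖Finsupp.linearCombination ℂ F c‖ := by
    intro c
    rw [one_mul]
    refine le_of_sq_le_sq ?_ (norm_nonneg _)
    have h1 : Finsupp.linearCombination ℂ (fun m => B m a b) c = ∑ k ∈ c.support, c k * B k a b := by
      rw [Finsupp.linearCombination_apply]; rfl
    have h2 : Finsupp.linearCombination ℂ F c = ∑ k ∈ c.support, c k • F k := by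
      rw [Finsupp.linearCombination_apply]; rfl
    have h3 : ‖Finsupp.linearCombination ℂ F c‖ ^ 2 =
        ∑ e, (∑ k ∈ c.support, ∑ k' ∈ c.support, c k * conj (c k') * B (k - k') e e).re := by
      rw [@norm_sq_eq_re_inner ℂ, h2, sum_inner, ← Complex.re_sum]
      show Complex.re _ = Complex.re _
      congr 1
      simp only [inner_sum, inner_smul_left, inner_smul_right, hF]
      rw [Finset.sum_comm]
      rw [Finset.sum_comm (s := Finset.univ)]
      refine Finset.sum_congr rfl fun k _ => ?_
      rw [Finset.sum_comm (s := Finset.univ)]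
      refine Finset.sum_congr rfl fun k' _ => ?_
      rw [← Finset.mul_sum]
      ring
    rw [h3, h1]
    refine (e2_cs h a b c.support c).trans ?_
    exact Finset.single_le_sum (f := fun e => (∑ k ∈ c.support, ∑ k' ∈ c.support,
      c k * conj (c k') * B (k - k') e e).re) (fun e _ => e2_diag h e c.support c)
      (Finset.mem_univ a)
  obtain ⟨g, hg⟩ := e2_ext _ _ 1 key
  refine ⟨fun x => conj (g x), (Lp.memLp g).star, fun m => ?_⟩
  have h5 := hg (Finsupp.single m 1)
  rw [Finsupp.linearCombination_single, Finsupp.linearCombination_single, one_smul, one_smul]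
    at h5
  rw [← h5, L2.inner_def, hFd]
  refine integral_congr_ae ?_
  filter_upwards [ContinuousMap.coeFn_toLp (p := 2) (𝕜 := ℂ) β (mFourier m)] with x hx
  rw [hx]
  simp [mul_comm]

end Pool.Agent.Helper97.FS
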