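import Pool.Agent.Helper97.FS.Stmts

set_option autoImplicit false

namespace Pool.Agent.Helper97.FS

open Finset MeasureTheory Filter Topology UnitAddTorus
open scoped ComplexConjugate
open Pool.Agent.Helper97.Sub

variable {d : ℕ}

theorem pde_ab_mono (V : List (Fin d)) {i i' : ℕ} (h : i ≤ i') :
    ab (V.take i) ≤ ab (V.take i') := by
  intro a
  show ((_ : ℕ) : ℤ) ≤ ((_ : ℕ) : ℤ)
  exact_mod_cast List.Sublist.count_le a (List.take_prefix_take_left h).sublist

theorem pde_cnt_supp {V : List (Fin d)} {a b : Fin d} {j : Fin d → ℤ}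
    (h : cnt V a b j ≠ 0) : 0 ≤ j ∨ j ≤ 0 := by
  unfold cnt at h
  rw [Finset.card_ne_zero] at h
  obtain ⟨⟨i, i'⟩, hi⟩ := h
  rw [Finset.mem_filter] at hi
  obtain ⟨-, -, -, hj⟩ := hi
  rw [← hj]
  rcases le_total i i' with hii | hii
  · left
    exact sub_nonneg.2 (pde_ab_mono V hii)
  · right
    exact sub_nonpos.2 (pde_ab_mono V hii)

theorem pde_abs_len {L : Fin d → ℝ} (hL : ∀ a, 0 < L a) {j : Fin d → ℤ}
    (hj : 0 ≤ j ∨ j ≤ 0) : |len L j| = ∑ a, L a * |(j a : ℝ)| := by
  unfold len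
  rcases hj with hj | hj
  · have h1 : ∀ a, (0 : ℝ) ≤ (j a : ℝ) := fun a => by exact_mod_cast hj a
    rw [abs_of_nonneg (Finset.sum_nonneg fun a _ => mul_nonneg (hL a).le (h1 a))]
    exact Finset.sum_congr rfl fun a _ => by rw [abs_of_nonneg (h1 a)]
  · have h1 : ∀ a, (j a : ℝ) ≤ 0 := fun a => by exact_mod_cast hj a
    rw [abs_of_nonpos (Finset.sum_nonpos fun a _ => mul_nonpos_of_nonneg_of_nonpos (hL a).le (h1 a)),
      ← Finset.sum_neg_distrib]
    exact Finset.sum_congr rfl fun a _ => by rw [abs_of_nonpos (h1 a)]; ring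

theorem pde_fin {L : Fin d → ℝ} (hL : ∀ a, 0 < L a) (R : ℝ) :
    {j : Fin d → ℤ | (0 ≤ j ∨ j ≤ 0) ∧ |len L j| ≤ R}.Finite := by
  refine Set.Finite.subset (Set.finite_Icc (fun a : Fin d => -(⌈R / L a⌉))
    (fun a : Fin d => ⌈R / L a⌉)) ?_
  rintro j ⟨hj, hR⟩
  have h1 : ∀ a, |j a| ≤ ⌈R / L a⌉ := by
    intro a
    have h2 : L a * |(j a : ℝ)| ≤ R := by
      rw [pde_abs_len hL hj] at hR
      exact (Finset.single_le_sum (f := fun a => L a * |(j a : ℝ)|)
        (fun a _ => mul_nonneg (hL a).le (abs_nonneg _)) (Finset.mem_univ a)).trans hR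
    have h3 : |(j a : ℝ)| ≤ R / L a := by
      rw [le_div_iff₀ (hL a)]; linarith
    have h4 : ((|j a| : ℤ) : ℝ) ≤ ((⌈R / L a⌉ : ℤ) : ℝ) := by
      push_cast
      exact h3.trans (Int.le_ceil _)
    exact_mod_cast h4
  exact ⟨fun a => (abs_le.1 (h1 a)).1, fun a => (abs_le.1 (h1 a)).2⟩

/-- The finite set of displacements over `m`. -/
theorem pde_finq {n : ℕ} {L : Fin d → ℝ} (hL : ∀ a, 0 < L a) {q : (Fin d → ℤ) →+ (Fin n → ℤ)}
    {v : (Fin n → ℤ) →+ ℝ} (hv : ∀ j, v (q j) = len L j) (m : Fin n → ℤ) :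
    {j : Fin d → ℤ | (0 ≤ j ∨ j ≤ 0) ∧ q j = m}.Finite := by
  refine (pde_fin hL |v m|).subset ?_
  rintro j ⟨h1, h2⟩
  refine ⟨h1, ?_⟩
  rw [← hv, h2]

theorem pde_Bc_eq {s n : ℕ} {L : Fin d → ℝ} {gam : Fin d → Fin d → (Fin d → ℤ) → ℝ}
    (hg : GamF L gam) {p : (Fin d → ℤ) →+ (Fin s → ℤ)} {q : (Fin d → ℤ) →+ (Fin n → ℤ)}
    {v : (Fin n → ℤ) →+ ℝ} (hv : ∀ j, v (q j) = len L j) (a b : Fin d) (m : Fin n → ℤ)
    (η : UnitAddTorus (Fin s)) :
    Bc gam p q a b m η = ∑ j ∈ (pde_finq hg.Lpos hv m).toFinset,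
      (gam a b j : ℂ) * mFourier (-(p j)) η := by
  have h1 : Bc gam p q a b m = ∑ j ∈ (pde_finq hg.Lpos hv m).toFinset,
      (gam a b j : ℂ) • mFourier (-(p j)) := by
    unfold Bc
    rw [finsum_eq_sum_of_support_subset (s := (pde_finq hg.Lpos hv m).toFinset)]
    · refine Finset.sum_congr rfl fun j hj => ?_
      rw [Set.Finite.mem_toFinset] at hj
      rw [if_pos hj.2]
    · intro j hj
      rw [Function.mem_support] at hj
      by_cases hq : q j = m
      · rw [if_pos hq] at hj
        have hg0 : gam a b j ≠ 0 := by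
          intro h0
          apply hj
          rw [h0, Complex.ofReal_zero]
          exact zero_smul ℂ (mFourier (-p j) : C(UnitAddTorus (Fin s), ℂ))
        simp only [Set.Finite.coe_toFinset]
        exact ⟨hg.supp a b j hg0, hq⟩
      · rw [if_neg hq] at hj
        exact absurd rfl hj
  rw [h1, ContinuousMap.coe_sum, Finset.sum_apply]
  rfl

/-- Positivity of sums over equal classes. -/
theorem pde_psd {ι κ : Type} [DecidableEq κ] (P : Finset ι) (f : ι → κ) (z : ι → ℂ) :
    0 ≤ (∑ x ∈ P, ∑ x' ∈ P, if f x = f x' then z x * conj (z x') else 0).re := by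
  have h1 : (∑ x ∈ P, ∑ x' ∈ P, if f x = f x' then z x * conj (z x') else 0) =
      ∑ t ∈ P.image f, (∑ x ∈ P, if f x = t then z x else 0) *
        conj (∑ x ∈ P, if f x = t then z x else 0) := by
    have h2 : ∀ t ∈ P.image f, (∑ x ∈ P, if f x = t then z x else 0) *
        conj (∑ x ∈ P, if f x = t then z x else 0) =
        ∑ x ∈ P, ∑ x' ∈ P, if f x = t then (if f x' = t then z x * conj (z x') else 0) else 0 := by
      intro t _
      rw [map_sum, Finset.sum_mul_sum]
      refine Finset.sum_congr rfl fun x _ => Finset.sum_congr rfl fun x' _ => ?_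
      by_cases h3 : f x = t
      · by_cases h4 : f x' = t
        · simp [h3, h4]
        · simp [h3, h4]
      · simp [h3]
    rw [Finset.sum_congr rfl h2]
    symm
    rw [Finset.sum_comm]
    refine Finset.sum_congr rfl fun x hx => ?_
    rw [Finset.sum_comm]
    refine Finset.sum_congr rfl fun x' _ => ?_
    rw [Finset.sum_ite_eq, if_pos (Finset.mem_image_of_mem f hx)]
    by_cases h3 : f x = f x'
    · rw [if_pos h3, if_pos h3.symm]
    · rw [if_neg h3, if_neg (fun h => h3 h.symm)]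
  rw [h1, Complex.re_sum]
  refine Finset.sum_nonneg fun t _ => ?_
  rw [Complex.mul_conj]
  simp [Complex.normSq_nonneg]

theorem pde_cnt_sum {s n : ℕ} {L : Fin d → ℝ} (hL : ∀ a, 0 < L a)
    (p : (Fin d → ℤ) →+ (Fin s → ℤ)) {q : (Fin d → ℤ) →+ (Fin n → ℤ)}
    {v : (Fin n → ℤ) →+ ℝ} (hv : ∀ j, v (q j) = len L j) (V : List (Fin d)) (a b : Fin d)
    (m : Fin n → ℤ) (η : UnitAddTorus (Fin s)) :
    ∑ j ∈ (pde_finq hL hv m).toFinset, (cnt V a b j : ℂ) * mFourier (-(p j)) η =
      ∑ i ∈ range V.length, ∑ i' ∈ range V.length,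
        if V[i]? = some a ∧ V[i']? = some b ∧ q (ab (V.take i')) - q (ab (V.take i)) = m then
          mFourier (p (ab (V.take i))) η * conj (mFourier (p (ab (V.take i'))) η) else 0 := by
  have h1 : ∀ j, (cnt V a b j : ℂ) * mFourier (-(p j)) η =
      ∑ i ∈ range V.length, ∑ i' ∈ range V.length,
        if ab (V.take i') - ab (V.take i) = j then
          (if V[i]? = some a ∧ V[i']? = some b then mFourier (-(p j)) η else 0) else 0 := by
    intro j
    rw [← Finset.sum_product']
    unfold cnt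
    rw [Finset.card_filter, Nat.cast_sum, Finset.sum_mul]
    refine Finset.sum_congr rfl fun x _ => ?_
    by_cases h2 : ab (V.take x.2) - ab (V.take x.1) = j
    · by_cases h3 : V[x.1]? = some a ∧ V[x.2]? = some b
      · rw [if_pos ⟨h3.1, h3.2, h2⟩, if_pos h2, if_pos h3]; simp
      · rw [if_neg (fun h => h3 ⟨h.1, h.2.1⟩), if_pos h2, if_neg h3]; simp
    · rw [if_neg (fun h => h2 h.2.2), if_neg h2]; simp
  rw [Finset.sum_congr rfl fun j _ => h1 j, Finset.sum_comm]
  refine Finset.sum_congr rfl fun i _ => ?_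
  rw [Finset.sum_comm]
  refine Finset.sum_congr rfl fun i' _ => ?_
  rw [Finset.sum_ite_eq]
  have h4 : ab (V.take i') - ab (V.take i) ∈ (pde_finq hL hv m).toFinset ↔
      q (ab (V.take i')) - q (ab (V.take i)) = m := by
    rw [Set.Finite.mem_toFinset, ← map_sub]
    constructor
    · exact fun h => h.2
    · refine fun h => ⟨?_, h⟩
      rcases le_total i i' with hii | hii
      · left
        exact sub_nonneg.2 (pde_ab_mono V hii)
      · right
        exact sub_nonpos.2 (pde_ab_mono V hii)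
  by_cases h5 : q (ab (V.take i')) - q (ab (V.take i)) = m
  · rw [if_pos (h4.2 h5)]
    by_cases h6 : V[i]? = some a ∧ V[i']? = some b
    · rw [if_pos h6, if_pos ⟨h6.1, h6.2, h5⟩, map_sub, neg_sub, sub_eq_add_neg, mFourier_add,
        mFourier_neg]
    · rw [if_neg h6, if_neg (fun h => h6 ⟨h.1, h.2.1⟩)]
  · rw [if_neg (fun h => h5 (h4.1 h)), if_neg (fun h => h5 h.2.2)]

theorem pde_word {s n : ℕ} {L : Fin d → ℝ} (hL : ∀ a, 0 < L a)
    (p : (Fin d → ℤ) →+ (Fin s → ℤ)) {q : (Fin d → ℤ) →+ (Fin n → ℤ)}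
    {v : (Fin n → ℤ) →+ ℝ} (hv : ∀ j, v (q j) = len L j) (V : List (Fin d))
    (η : UnitAddTorus (Fin s)) (S : Finset (Fin n → ℤ)) (c : (Fin n → ℤ) → Fin d → ℂ) :
    0 ≤ (∑ m ∈ S, ∑ m' ∈ S, ∑ a, ∑ b, c m a * conj (c m' b) *
      ∑ j ∈ (pde_finq hL hv (m' - m)).toFinset, (cnt V a b j : ℂ) * mFourier (-(p j)) η).re := by
  have h0 := pde_psd (S ×ˢ range V.length)
    (fun x : (Fin n → ℤ) × ℕ => q (ab (V.take x.2)) - x.1)
    (fun x => (∑ a, if V[x.2]? = some a then c x.1 a else 0) * mFourier (p (ab (V.take x.2))) η)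
  have h1 : (∑ m ∈ S, ∑ m' ∈ S, ∑ a, ∑ b, c m a * conj (c m' b) *
      ∑ j ∈ (pde_finq hL hv (m' - m)).toFinset, (cnt V a b j : ℂ) * mFourier (-(p j)) η) =
      ∑ x ∈ S ×ˢ range V.length, ∑ x' ∈ S ×ˢ range V.length,
        if q (ab (V.take x.2)) - x.1 = q (ab (V.take x'.2)) - x'.1 then
          ((∑ a, if V[x.2]? = some a then c x.1 a else 0) * mFourier (p (ab (V.take x.2))) η) *
          conj ((∑ a, if V[x'.2]? = some a then c x'.1 a else 0) *
            mFourier (p (ab (V.take x'.2))) η) else 0 := by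
    rw [Finset.sum_product]
    refine Finset.sum_congr rfl fun m _ => ?_
    have h2 : ∀ i ∈ range V.length, (∑ x' ∈ S ×ˢ range V.length,
        if q (ab (V.take i)) - m = q (ab (V.take x'.2)) - x'.1 then
          ((∑ a, if V[i]? = some a then c m a else 0) * mFourier (p (ab (V.take i))) η) *
          conj ((∑ a, if V[x'.2]? = some a then c x'.1 a else 0) *
            mFourier (p (ab (V.take x'.2))) η) else 0) =
        ∑ m' ∈ S, ∑ i' ∈ range V.length,
        if q (ab (V.take i)) - m = q (ab (V.take i')) - m' then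
          ((∑ a, if V[i]? = some a then c m a else 0) * mFourier (p (ab (V.take i))) η) *
          conj ((∑ a, if V[i']? = some a then c m' a else 0) *
            mFourier (p (ab (V.take i'))) η) else 0 := by
      intro i _
      rw [Finset.sum_product]
    rw [Finset.sum_congr rfl h2]
    symm
    rw [Finset.sum_comm]
    refine Finset.sum_congr rfl fun m' _ => ?_
    symm
    simp only [pde_cnt_sum hL p hv]
    have h3 : ∀ a b : Fin d, c m a * conj (c m' b) * (∑ i ∈ range V.length,
        ∑ i' ∈ range V.length, if V[i]? = some a ∧ V[i']? = some b ∧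
          q (ab (V.take i')) - q (ab (V.take i)) = m' - m then
          mFourier (p (ab (V.take i))) η * conj (mFourier (p (ab (V.take i'))) η) else 0) =
        ∑ i ∈ range V.length, ∑ i' ∈ range V.length,
          (if V[i]? = some a then c m a else 0) * (conj (if V[i']? = some b then c m' b else 0) *
            (if q (ab (V.take i)) - m = q (ab (V.take i')) - m' then
            mFourier (p (ab (V.take i))) η * conj (mFourier (p (ab (V.take i'))) η) else 0)) := by
      intro a b
      rw [Finset.mul_sum]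
      refine Finset.sum_congr rfl fun i _ => ?_
      rw [Finset.mul_sum]
      refine Finset.sum_congr rfl fun i' _ => ?_
      have h4 : q (ab (V.take i')) - q (ab (V.take i)) = m' - m ↔
          q (ab (V.take i)) - m = q (ab (V.take i')) - m' := by
        constructor
        · intro h
          rw [sub_eq_sub_iff_add_eq_add] at h ⊢
          rw [add_comm (q (ab (V.take i))) m', ← h, add_comm]
        · intro h
          rw [sub_eq_sub_iff_add_eq_add] at h ⊢
          rw [add_comm m', h, add_comm]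
      by_cases h5 : V[i]? = some a
      · by_cases h6 : V[i']? = some b
        · by_cases h7 : q (ab (V.take i)) - m = q (ab (V.take i')) - m'
          · rw [if_pos ⟨h5, h6, h4.2 h7⟩, if_pos h5, if_pos h6, if_pos h7]; ring
          · rw [if_neg (fun h => h7 (h4.1 h.2.2)), if_neg h7]; simp
        · rw [if_neg (fun h => h6 h.2.1), if_neg h6]; simp
      · rw [if_neg (fun h => h5 h.1), if_neg h5]; simp
    simp only [h3]
    -- exchange the sums over letters with the sums over positions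
    have h8 : ∀ (F : Fin d → Fin d → ℕ → ℕ → ℂ), (∑ a, ∑ b, ∑ i ∈ range V.length,
        ∑ i' ∈ range V.length, F a b i i') =
        ∑ i ∈ range V.length, ∑ i' ∈ range V.length, ∑ a, ∑ b, F a b i i' := by
      intro F
      calc (∑ a, ∑ b, ∑ i ∈ range V.length, ∑ i' ∈ range V.length, F a b i i')
          = ∑ a, ∑ i ∈ range V.length, ∑ b, ∑ i' ∈ range V.length, F a b i i' :=
            Finset.sum_congr rfl fun a _ => Finset.sum_comm
        _ = ∑ i ∈ range V.length, ∑ a, ∑ b, ∑ i' ∈ range V.length, F a b i i' :=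
            Finset.sum_comm
        _ = ∑ i ∈ range V.length, ∑ a, ∑ i' ∈ range V.length, ∑ b, F a b i i' :=
            Finset.sum_congr rfl fun i _ => Finset.sum_congr rfl fun a _ => Finset.sum_comm
        _ = _ := Finset.sum_congr rfl fun i _ => Finset.sum_comm
    rw [h8]
    refine Finset.sum_congr rfl fun i _ => Finset.sum_congr rfl fun i' _ => ?_
    simp only [← Finset.mul_sum, ← Finset.sum_mul, ← map_sum]
    by_cases h7 : q (ab (V.take i)) - m = q (ab (V.take i')) - m'
    · rw [if_pos h7, if_pos h7, map_mul]; ring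
    · rw [if_neg h7, if_neg h7]; simp
  rw [h1]
  exact h0

theorem st_PDE (h : ST_GF) : ST_PDE := by
  intro d σ M θ L f gam hD s n p q v hv η
  have hg := h d σ M θ L f gam hD
  have hne : Nonempty (Fin d) := by
    by_contra hne
    rw [not_nonempty_iff] at hne
    have h1 := hg.trace
    rw [Finset.univ_eq_empty, Finset.sum_empty] at h1
    exact zero_ne_one h1
  refine ⟨?_, ?_, ?_, ?_, ?_⟩
  · intro m a b
    show Bc gam p q b a (-m) η = conj (Bc gam p q a b m η)
    rw [pde_Bc_eq hg hv, pde_Bc_eq hg hv, map_sum]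
    refine Finset.sum_bij' (fun j _ => -j) (fun j _ => -j) ?_ ?_ (fun j _ => neg_neg j)
      (fun j _ => neg_neg j) ?_
    · intro j hj
      rw [Set.Finite.mem_toFinset] at hj ⊢
      refine ⟨?_, by rw [map_neg, hj.2, neg_neg]⟩
      rcases hj.1 with h1 | h1
      · exact Or.inr (neg_nonpos.2 h1)
      · exact Or.inl (neg_nonneg.2 h1)
    · intro j hj
      rw [Set.Finite.mem_toFinset] at hj ⊢
      refine ⟨?_, by rw [map_neg, hj.2]⟩
      rcases hj.1 with h1 | h1
      · exact Or.inr (neg_nonpos.2 h1)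
      · exact Or.inl (neg_nonneg.2 h1)
    · intro j _
      rw [map_mul, ← mFourier_neg, Complex.conj_ofReal, hg.symm b a j, map_neg, neg_neg]
  · intro S c
    obtain ⟨a0⟩ := hne
    have hlim : Tendsto (fun N : ℕ => (∑ m ∈ S, ∑ m' ∈ S, ∑ a, ∑ b, c m a * conj (c m' b) *
        ∑ j ∈ (pde_finq hg.Lpos hv (m' - m)).toFinset,
          (((cnt (T σ N a0) a b j : ℝ) / ((T σ N a0).length : ℝ) : ℝ) : ℂ) *
            mFourier (-(p j)) η).re) atTop
        (𝓝 (∑ m ∈ S, ∑ m' ∈ S, ∑ a, ∑ b, c m a * conj (c m' b) *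
          Bc gam p q a b (m' - m) η).re) := by
      refine (Complex.continuous_re.tendsto _).comp ?_
      refine tendsto_finsetSum _ fun m _ => tendsto_finsetSum _ fun m' _ =>
        tendsto_finsetSum _ fun a _ => tendsto_finsetSum _ fun b _ => ?_
      rw [pde_Bc_eq hg hv]
      refine Tendsto.const_mul _ (tendsto_finsetSum _ fun j _ => ?_)
      refine Tendsto.mul_const _ ?_
      exact (Complex.continuous_ofReal.tendsto _).comp (hD.gl a0 a b j)
    refine ge_of_tendsto' hlim fun N => ?_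
    have h1 := pde_word hg.Lpos p hv (T σ N a0) η S c
    have h2 : (∑ m ∈ S, ∑ m' ∈ S, ∑ a, ∑ b, c m a * conj (c m' b) *
        ∑ j ∈ (pde_finq hg.Lpos hv (m' - m)).toFinset,
          (((cnt (T σ N a0) a b j : ℝ) / ((T σ N a0).length : ℝ) : ℝ) : ℂ) *
            mFourier (-(p j)) η) =
        (((((T σ N a0).length : ℝ))⁻¹ : ℝ) : ℂ) *
        (∑ m ∈ S, ∑ m' ∈ S, ∑ a, ∑ b, c m a * conj (c m' b) *
        ∑ j ∈ (pde_finq hg.Lpos hv (m' - m)).toFinset,
          (cnt (T σ N a0) a b j : ℂ) * mFourier (-(p j)) η) := by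
      simp only [Finset.mul_sum]
      refine Finset.sum_congr rfl fun m _ => Finset.sum_congr rfl fun m' _ =>
        Finset.sum_congr rfl fun a _ => Finset.sum_congr rfl fun b _ =>
        Finset.sum_congr rfl fun j _ => ?_
      push_cast
      ring
    rw [h2, Complex.re_ofReal_mul]
    exact mul_nonneg (inv_nonneg.2 (Nat.cast_nonneg _)) h1
  · obtain ⟨a0, -, ha0⟩ := Finset.exists_min_image Finset.univ L Finset.univ_nonempty
    refine ⟨L a0, hg.Lpos a0, fun m hm hvm => ?_⟩
    funext a b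
    show Bc gam p q a b m η = 0
    rw [pde_Bc_eq hg hv]
    refine Finset.sum_eq_zero fun j hj => ?_
    rw [Set.Finite.mem_toFinset] at hj
    exfalso
    have hj0 : j ≠ 0 := by
      rintro rfl
      exact hm (by rw [← hj.2, map_zero])
    obtain ⟨e, he⟩ := Function.ne_iff.1 hj0
    have h3 : L a0 ≤ |len L j| := by
      rw [pde_abs_len hg.Lpos hj.1]
      have h4 : L e * |(j e : ℝ)| ≤ ∑ a, L a * |(j a : ℝ)| :=
        Finset.single_le_sum (f := fun a => L a * |(j a : ℝ)|)
          (fun a _ => mul_nonneg (hg.Lpos a).le (abs_nonneg _)) (Finset.mem_univ e)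
      refine le_trans ?_ h4
      have h5 : (1 : ℝ) ≤ |(j e : ℝ)| := by
        have h6 : (1 : ℤ) ≤ |j e| := Int.one_le_abs he
        exact_mod_cast h6
      calc L a0 ≤ L e := ha0 e (Finset.mem_univ e)
        _ = L e * 1 := (mul_one _).symm
        _ ≤ _ := mul_le_mul_of_nonneg_left h5 (hg.Lpos e).le
    rw [← hv, hj.2] at h3
    exact absurd hvm (not_lt.2 h3)
  · intro R
    refine ((pde_fin hg.Lpos R).image q).subset ?_
    rintro m ⟨h1, h2⟩
    have h3 : ∃ a b, Bc gam p q a b m η ≠ 0 := by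
      by_contra h4
      push Not at h4
      exact h2 (by funext a b; exact h4 a b)
    obtain ⟨a, b, h4⟩ := h3
    rw [pde_Bc_eq hg hv] at h4
    obtain ⟨j, hj, -⟩ := Finset.exists_ne_zero_of_sum_ne_zero h4
    rw [Set.Finite.mem_toFinset] at hj
    refine ⟨j, ⟨hj.1, ?_⟩, hj.2⟩
    rw [← hv, hj.2]
    exact h1
  · have h1 : ∀ a, Bc gam p q a a 0 η = (gam a a 0 : ℂ) := by
      intro a
      rw [pde_Bc_eq hg hv, Finset.sum_eq_single (0 : Fin d → ℤ)]
      · rw [map_zero, neg_zero, mFourier_zero]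
        simp
      · intro j hj hj0
        rw [Set.Finite.mem_toFinset] at hj
        exfalso
        have h2 : |len L j| = 0 := by rw [← hv, hj.2, map_zero, abs_zero]
        obtain ⟨e, he⟩ := Function.ne_iff.1 hj0
        rw [pde_abs_len hg.Lpos hj.1] at h2
        have h4 : L e * |(j e : ℝ)| ≤ ∑ a, L a * |(j a : ℝ)| :=
          Finset.single_le_sum (f := fun a => L a * |(j a : ℝ)|)
            (fun a _ => mul_nonneg (hg.Lpos a).le (abs_nonneg _)) (Finset.mem_univ e)
        have h5 : 0 < L e * |(j e : ℝ)| := by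
          refine mul_pos (hg.Lpos e) (abs_pos.2 ?_)
          exact_mod_cast he
        linarith
      · intro h2
        exfalso
        apply h2
        rw [Set.Finite.mem_toFinset]
        exact ⟨Or.inl le_rfl, map_zero q⟩
    rw [Finset.sum_congr rfl fun a _ => h1 a]
    exact_mod_cast hg.trace

end Pool.Agent.Helper97.FS
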